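import Pool.Agent.Lib_helper2.EFD.W.PD
import Pool.Agent.Lib_helper2.EFD.W.PE
import Pool.Agent.Lib_helper2.EFD.W.CA
import Pool.Agent.Lib_helper2.EFD.W.CB

/-! [PF] the whole run is polynomial time. -/

namespace Pool.Agent.EFD
open Pool.Agent.PTm Pool.Agent.EFX3

theorem pf_sz_append {α : Type} [ToD α] (l l' : List α) : sz (l ++ l') + 1 = sz l + sz l' := by
  induction l with
  | nil => rw [List.nil_append, sz_nil]; omega
  | cons a t ih => rw [List.cons_append, sz_cons, sz_cons]; omega

theorem pf_sz_perm {α : Type} [ToD α] {l l' : List α} (h : l.Perm l') : sz l = sz l' := by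
  induction h with
  | nil => rfl
  | cons a _ ih => rw [sz_cons, sz_cons, ih]
  | swap a b l => rw [sz_cons, sz_cons, sz_cons, sz_cons]; omega
  | trans _ _ ih1 ih2 => rw [ih1, ih2]

theorem pf_ins_perm (a b : Fin 3) (g : Good) (l : List Good) : (ins a b g l).Perm (g :: l) := by
  induction l with
  | nil => exact List.Perm.refl _
  | cons h t ih =>
    change (if before a b g h = true then g :: h :: t else h :: ins a b g t).Perm (g :: h :: t)
    split_ifs
    · exact List.Perm.refl _
    · exact (ih.cons h).trans (List.Perm.swap g h t)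

theorem pf_srt_perm (a b : Fin 3) (l : List Good) : (srt a b l).Perm l := by
  induction l with
  | nil => exact List.Perm.refl _
  | cons g t ih => exact (pf_ins_perm a b g (srt a b t)).trans (ih.cons g)

/-- the size of a representative -/
theorem pf_sz_rep {K : Fin 3 → List Unit} {N : List Good} {P : Part} (h : P ∈ reps K N) :
    sz P = sz N + 4 := by
  have h1 := pf_sz_perm (reps_perm h)
  have h2 := pf_sz_append (P 0 ++ P 1) (P 2)
  have h3 := pf_sz_append (P 0) (P 1)
  have h4 : sz P = sz (P 0) + (sz (P 1) + sz (P 2) + 1) + 1 := rfl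
  omega

/-- the size of a list with bounded entries -/
theorem pf_sz_list {α : Type} [ToD α] (B : ℕ) (l : List α) (h : ∀ a ∈ l, sz a ≤ B) :
    sz l ≤ 1 + l.length * (B + 1) := by
  induction l with
  | nil => rw [sz_nil]; omega
  | cons a t ih =>
    have h1 := h a List.mem_cons_self
    have h2 := ih fun b hb => h b (List.mem_cons_of_mem _ hb)
    rw [sz_cons, List.length_cons]
    calc sz a + sz t + 1 ≤ B + (1 + t.length * (B + 1)) + 1 := by omega
      _ = 1 + (t.length + 1) * (B + 1) := by ring

/-- the size of the best allocation in one stage -/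
theorem pf_try (a : Fin 3) (N : List Good) (M : ℕ) : ∀ (L : List Part) (A : Part),
    (∀ P ∈ L, sz P + sz N ≤ M) → sz A ≤ M →
      sz (L.foldl (fun acc P => tryP a N P acc) A) ≤ M := by
  intro L
  induction L with
  | nil => intro A _ hA; exact hA
  | cons P L ih =>
    intro A h hA
    rw [List.foldl_cons]
    apply ih _ (fun P' hP' => h P' (List.mem_cons_of_mem _ hP'))
    exact (sz_tryP a N P A).trans (max_le hA (h P List.mem_cons_self))

/-- the state after a prefix -/
theorem pf_state (a : Fin 3) (K : Fin 3 → List Unit) (N : List Good) (acc : Part) :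
    ∀ l1 l2 : List Good, l1 ++ l2 = N →
      (l1.foldl (fun s (_ : Good) => stage a K s) (N, [fun _ => []], acc)).1 = l2 ∧
      (l1.foldl (fun s (_ : Good) => stage a K s) (N, [fun _ => []], acc)).2.1 = reps K l1 ∧
      sz (l1.foldl (fun s (_ : Good) => stage a K s) (N, [fun _ => []], acc)).2.2 ≤
        sz acc + sz N + 5 := by
  intro l1
  induction l1 using List.reverseRecOn with
  | nil =>
    intro l2 h
    rw [List.nil_append] at h
    refine ⟨h.symm, rfl, ?_⟩
    change sz acc ≤ _
    omega
  | append_singleton l g ih =>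
    intro l2 h
    have h' : l ++ (g :: l2) = N := by rw [← h]; simp
    obtain ⟨i1, i2, i3⟩ := ih (g :: l2) h'
    rw [List.foldl_append, List.foldl_cons, List.foldl_nil]
    obtain ⟨s, hs⟩ : ∃ s, s = l.foldl (fun s (_ : Good) => stage a K s)
      (N, [fun _ => []], acc) := ⟨_, rfl⟩
    rw [← hs] at i1 i2 i3 ⊢
    obtain ⟨s1, s2, s3⟩ := s
    change s1 = g :: l2 at i1
    change s2 = reps K l at i2
    change sz s3 ≤ _ at i3
    subst i1
    subst i2
    refine ⟨rfl, ?_, ?_⟩
    · change expand K g (reps K l) = reps K (l ++ [g])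
      unfold reps
      rw [List.foldl_append, List.foldl_cons, List.foldl_nil]
    · change sz ((reps K l).foldl (fun acc P => tryP a (g :: l2) P acc) s3) ≤ _
      apply pf_try a (g :: l2) _ _ _ _ i3
      intro P hP
      have h1 := pf_sz_rep hP
      have h2 := pf_sz_append l (g :: l2)
      rw [h'] at h2
      omega

theorem pf_len {K : Fin 3 → List Unit} {N l1 : List Good} {B n : ℕ}
    (hB : ∀ g ∈ l1, ∀ i, wt K i g ≤ B) (hl : l1.length ≤ n) (hBn : B ≤ 16 * n)
    (hN : sz l1 ≤ sz N) :
    sz (reps K l1) ≤ 1 + (n * (16 * n) + 1) ^ 9 * (sz N + 5) := by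
  have h1 := reps_length K l1 B hB
  have h2 := pf_sz_list (sz N + 4) (reps K l1) (fun P hP => by
    have := pf_sz_rep hP
    omega)
  refine h2.trans ?_
  have h3 : (reps K l1).length ≤ (n * (16 * n) + 1) ^ 9 := by
    refine h1.trans (Nat.pow_le_pow_left ?_ 9)
    exact Nat.add_le_add_right (Nat.mul_le_mul hl hBn) 1
  exact Nat.add_le_add_left (Nat.mul_le_mul_right _ h3) 1

theorem pf_stages (a : Fin 3) {acc : List (Fin 3 → ℕ) → Part} (hacc : PTime acc) :
    PTime (fun I => stages a (KK (goods I)) (srt a a (goods I)) (acc I)) := by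
  have hL : PTime goods := pt_goods
  have hS : PTime (fun I => srt a a (goods I)) := PTime.comp (pt_srt a a) hL
  obtain ⟨Pg, hPg⟩ := hL.size_le
  obtain ⟨Ps, hPs⟩ := hS.size_le
  obtain ⟨Pa, hPa⟩ := hacc.size_le
  refine PTime.foldl (γ := List (Fin 3 → ℕ)) (α := Good) (β := List Good × List Part × Part)
    (l := fun I => srt a a (goods I))
    (i := fun I => (srt a a (goods I), [fun _ => []], acc I))
    (s := fun I s _ => stage a (KK (goods I)) s) hS
    (hS.pair ((PTime.const [fun _ => []]).pair hacc)) ?_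
    (Ps + (1 + (Pg * (16 * Pg) + 1) ^ 9 * (Ps + 5)) + (Pa + Ps + 5) + 2) ?_
  · exact pt_stage a (pt_KK (PTime.comp hL pt_fst)) (PTime.fst pt_snd)
  · intro I l' hl'
    obtain ⟨l2, hl2⟩ := hl'
    obtain ⟨i1, i2, i3⟩ := pf_state a (KK (goods I)) (srt a a (goods I)) (acc I) l' l2 hl2
    obtain ⟨s, hs⟩ : ∃ s, s = l'.foldl (fun s (_ : Good) => stage a (KK (goods I)) s)
      (srt a a (goods I), [fun _ => []], acc I) := ⟨_, rfl⟩
    rw [← hs] at i1 i2 i3
    change sz (l'.foldl (fun s (_ : Good) => stage a (KK (goods I)) s)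
      (srt a a (goods I), [fun _ => []], acc I)) ≤ _
    rw [← hs]
    have h1 : sz s = sz s.1 + (sz s.2.1 + sz s.2.2 + 1) + 1 := rfl
    have hmem : ∀ g ∈ l', g ∈ goods I := by
      intro g hg
      have : g ∈ srt a a (goods I) := by
        rw [← hl2]
        exact List.mem_append_left _ hg
      exact (pf_srt_perm a a (goods I)).mem_iff.1 this
    have hlen : l'.length ≤ (goods I).length := by
      rw [← (pf_srt_perm a a (goods I)).length_eq, ← hl2, List.length_append]
      omega
    have hsz : sz l' ≤ sz (srt a a (goods I)) := by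
      have h2 := pf_sz_append l' l2
      rw [hl2] at h2
      have h3 := sz_pos l2
      omega
    have hsz2 : sz l2 ≤ sz (srt a a (goods I)) := by
      have h2 := pf_sz_append l' l2
      rw [hl2] at h2
      have h3 := sz_pos l'
      omega
    have hg1 : (goods I).length ≤ Pg.eval (sz I) := (length_le_sz _).trans (hPg I)
    have h4 := pf_len (K := KK (goods I)) (N := srt a a (goods I)) (l1 := l')
      (B := 16 * (goods I).length) (n := Pg.eval (sz I))
      (fun g hg i => (wt_lt (hmem g hg)).le) (hlen.trans hg1)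
      (Nat.mul_le_mul_left 16 hg1) hsz
    have h5 := hPs I
    have h6 := hPa I
    change sz (srt a a (goods I)) ≤ _ at h5
    have h7 : 1 + (Pg.eval (sz I) * (16 * Pg.eval (sz I)) + 1) ^ 9 *
        (sz (srt a a (goods I)) + 5) ≤
        1 + (Pg.eval (sz I) * (16 * Pg.eval (sz I)) + 1) ^ 9 * (Ps.eval (sz I) + 5) := by
      gcongr
    simp only [Polynomial.eval_add, Polynomial.eval_mul, Polynomial.eval_pow,
      Polynomial.eval_ofNat, Polynomial.eval_one]
    rw [h1, i1, i2]
    omega

theorem pf_upd (L : List Part) : ∀ A : Part, sz (L.foldl (fun A P => upd A P) A) ≤ sz A + sz L := by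
  induction L with
  | nil => intro A; change sz A ≤ _; omega
  | cons P L ih =>
    intro A
    rw [List.foldl_cons, sz_cons]
    have h1 := ih (upd A P)
    have h2 := sz_upd A P
    have h3 : max (sz A) (sz P) ≤ sz A + sz P := max_le (by omega) (by omega)
    omega

theorem pt_run_pr (a : Fin 3) {acc : List (Fin 3 → ℕ) → Part} (hacc : PTime acc) :
    PTime (fun I => run a (KK (goods I)) (srt a a (goods I)) (acc I)) := by
  have h := pf_stages a hacc
  obtain ⟨P, hP⟩ := h.size_le
  refine PTime.foldl (γ := List (Fin 3 → ℕ)) (α := Part) (β := Part)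
    (l := fun I => (stages a (KK (goods I)) (srt a a (goods I)) (acc I)).2.1)
    (i := fun I => (stages a (KK (goods I)) (srt a a (goods I)) (acc I)).2.2)
    (s := fun _ A P => upd A P) (PTime.fst (PTime.snd h)) (PTime.snd (PTime.snd h)) ?_ P ?_
  · exact pt_upd (PTime.fst pt_snd) (PTime.snd pt_snd)
  · intro I l' hl'
    obtain ⟨l2, hl2⟩ := hl'
    have h1 := hP I
    obtain ⟨s, hs⟩ : ∃ s, s = stages a (KK (goods I)) (srt a a (goods I)) (acc I) := ⟨_, rfl⟩
    change l' ++ l2 = (stages a (KK (goods I)) (srt a a (goods I)) (acc I)).2.1 at hl2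
    change sz (l'.foldl (fun A P => upd A P)
      (stages a (KK (goods I)) (srt a a (goods I)) (acc I)).2.2) ≤ _
    rw [← hs] at h1 hl2 ⊢
    have h2 := pf_upd l' s.2.2
    have h3 : sz s = sz s.1 + (sz s.2.1 + sz s.2.2 + 1) + 1 := rfl
    have h4 := pf_sz_append l' l2
    rw [hl2] at h4
    have h5 := sz_pos l2
    omega

theorem alg2_ptime_pr : PTime alg2 := by
  have hL : PTime goods := pt_goods
  have hA : PTime best2 := pt_run_pr 2 (pt_run_pr 1 (pt_run_pr 0
    (pt_vec hL (PTime.const []) (PTime.const []))))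
  refine PTime.lam fun i => ?_
  exact PTime.map (γ := List (Fin 3 → ℕ)) (α := Good) (β := ℕ)
    (f := fun _ g => g.1) (pt_appc hA i) (PTime.fst pt_snd)

end Pool.Agent.EFD
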